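import Pool.Agent.Helper95.GR.Deg
import Pool.Agent.Helper19.SP.MvU

/-!
# Polynomials in real variables which are affine along real lines (`ns_notes_39c`, section 2)

In the ring `QS S` of the exact entropy calculus: let `G` be a polynomial and `v` a vector, both known
to `A`, let `y` be real over `A`, and `s` real over `B`, where `B` knows `A` and `y`. If
`G (y + s v) = α + s β` with `α`, `β` known to `B`, then `(v·∂)² G = 0`. If this holds for the rows `v` of an invertible
matrix, then `G` has degree at most `m`.
-/

namespace Pool.Agent.Helper95.GR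

open MvPolynomial

section algebra

variable {R : Type*} [CommRing R] {m : ℕ}

/-- restriction of a polynomial to the lines with direction `v` -/
noncomputable def lin (v : Fin m → R) :
    MvPolynomial (Fin m) R →ₐ[R] Polynomial (MvPolynomial (Fin m) R) :=
  aeval (fun j => Polynomial.C (X j) + Polynomial.X * Polynomial.C (C (v j)))

theorem lin_X (v : Fin m → R) (j : Fin m) :
    lin v (X j) = Polynomial.C (X j) + Polynomial.X * Polynomial.C (C (v j)) := by
  unfold lin
  rw [aeval_X]

theorem lin_C (v : Fin m → R) (a : R) : lin v (C a) = Polynomial.C (C a) := by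
  unfold lin
  rw [aeval_C]
  rfl

theorem derivative_lin (v : Fin m → R) (G : MvPolynomial (Fin m) R) :
    Polynomial.derivative (lin v G) = lin v (dd v G) := by
  induction G using MvPolynomial.induction_on with
  | C a => rw [lin_C, Polynomial.derivative_C, dd_C, map_zero]
  | add p q hp hq => rw [map_add, map_add, dd_add, map_add, hp, hq]
  | mul_X p j hp =>
    have h1 : Polynomial.derivative (Polynomial.C (X j : MvPolynomial (Fin m) R) +
        Polynomial.X * Polynomial.C (C (v j))) = Polynomial.C (C (v j)) := by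
      rw [map_add, Polynomial.derivative_C, Polynomial.derivative_mul, Polynomial.derivative_X,
        Polynomial.derivative_C, one_mul, mul_zero, add_zero, zero_add]
    rw [map_mul, Polynomial.derivative_mul, dd_mul, map_add, map_mul, map_mul, hp, dd_X, lin_C,
      lin_X, h1]
    ring

theorem coeff_zero_lin (v : Fin m → R) (G : MvPolynomial (Fin m) R) : (lin v G).coeff 0 = G := by
  induction G using MvPolynomial.induction_on with
  | C a => rw [lin_C, Polynomial.coeff_C_zero]
  | add p q hp hq => rw [map_add, Polynomial.coeff_add, hp, hq]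
  | mul_X p j hp =>
    rw [map_mul, Polynomial.mul_coeff_zero, hp, lin_X, Polynomial.coeff_add, Polynomial.coeff_C_zero,
      Polynomial.mul_coeff_zero, Polynomial.coeff_X_zero, zero_mul, add_zero]

/-- the second derivative in the direction `v` is twice the quadratic coefficient along the lines -/
theorem dd_dd (v : Fin m → R) (G : MvPolynomial (Fin m) R) :
    dd v (dd v G) = 2 * (lin v G).coeff 2 := by
  have h1 : dd v (dd v G) = (Polynomial.derivative (Polynomial.derivative (lin v G))).coeff 0 := by
    rw [derivative_lin, derivative_lin, coeff_zero_lin]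
  rw [h1, Polynomial.coeff_derivative, Polynomial.coeff_derivative]
  push_cast
  ring

theorem eval_lin (v : Fin m → R) (G : MvPolynomial (Fin m) R) (y : Fin m → R) (s : R) :
    ((lin v G).map (eval y)).eval s = eval (fun j => y j + s * v j) G := by
  induction G using MvPolynomial.induction_on with
  | C a => rw [lin_C, Polynomial.map_C, Polynomial.eval_C, eval_C, eval_C]
  | add p q hp hq => rw [map_add, Polynomial.map_add, Polynomial.eval_add, map_add, hp, hq]
  | mul_X p j hp =>
    rw [map_mul, Polynomial.map_mul, Polynomial.eval_mul, map_mul, hp, lin_X, eval_X,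
      Polynomial.map_add, Polynomial.map_mul, Polynomial.map_C, Polynomial.map_C, Polynomial.map_X,
      Polynomial.eval_add, Polynomial.eval_mul, Polynomial.eval_C, Polynomial.eval_C,
      Polynomial.eval_X, eval_X, eval_C]

end algebra

open Pool.Agent.Helper31.EC Pool.Agent.Helper31.EC.QS

noncomputable section

variable {S : Sp} {m : ℕ}

/-- polynomials over the polynomials with coefficients known to `A` -/
def PP (m : ℕ) (A : S.L) : Subring (Polynomial (MvPolynomial (Fin m) (QS S))) where
  carrier := {P | ∀ a, P.coeff a ∈ PK A}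
  mul_mem' := by
    intro P Q hP hQ a
    rw [Polynomial.coeff_mul]
    exact (PK A).sum_mem fun x _ => (PK A).mul_mem (hP x.1) (hQ x.2)
  one_mem' := by
    intro a
    rw [Polynomial.coeff_one]
    split_ifs
    · exact (PK A).one_mem
    · exact (PK A).zero_mem
  add_mem' := by
    intro P Q hP hQ a
    rw [Polynomial.coeff_add]
    exact (PK A).add_mem (hP a) (hQ a)
  zero_mem' := by
    intro a
    rw [Polynomial.coeff_zero]
    exact (PK A).zero_mem
  neg_mem' := by
    intro P hP a
    rw [Polynomial.coeff_neg]
    exact (PK A).neg_mem (hP a)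

theorem PP_C {A : S.L} {c : MvPolynomial (Fin m) (QS S)} (hc : c ∈ PK A) : Polynomial.C c ∈ PP m A := by
  intro a
  rw [Polynomial.coeff_C]
  split_ifs
  · exact hc
  · exact (PK A).zero_mem

theorem PP_X {A : S.L} : (Polynomial.X : Polynomial (MvPolynomial (Fin m) (QS S))) ∈ PP m A := by
  intro a
  rw [Polynomial.coeff_X]
  split_ifs
  · exact (PK A).one_mem
  · exact (PK A).zero_mem

theorem lin_mem {A : S.L} {v : Fin m → QS S} (hv : ∀ j, dg (v j) 1 ≤ A)
    {G : MvPolynomial (Fin m) (QS S)} (hG : G ∈ PK A) : lin v G ∈ PP m A := by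
  rw [G.as_sum, map_sum]
  refine (PP m A).sum_mem fun a _ => ?_
  rw [monomial_eq, map_mul, lin_C, Finsupp.prod, map_prod]
  refine (PP m A).mul_mem (PP_C (C_mem (hG a))) ((PP m A).prod_mem fun i _ => ?_)
  rw [map_pow]
  refine (PP m A).pow_mem ?_ _
  rw [lin_X]
  exact (PP m A).add_mem (PP_C (X_mem A i)) ((PP m A).mul_mem PP_X (PP_C (C_mem (hv i))))

/-- all positive integers are units of `QS S` -/
theorem isUnit_natCast (n : ℕ) : IsUnit ((n : QS S) + 1) := by
  have h1 : ((n : QS S) + 1) = mk ((n : TR S) + 1) := by
    rw [map_add, map_natCast, map_one]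
  rw [h1, isUnit_mk]
  refine ⟨fun _ => 1, S.Sub_const zero_le_one, Sp.Typ_true.mono (Filter.Eventually.of_forall fun k ω _ _ => ?_)⟩
  have h2 : TR.ev ((n : TR S) + 1) k ω = (n : ℝ) + 1 := by
    rw [← TR.evh_apply, map_add, map_natCast, map_one]
  rw [h2, one_mul]
  have h3 : (0 : ℝ) ≤ n := Nat.cast_nonneg n
  rw [abs_of_nonneg (by linarith)]
  linarith

/-- a polynomial which is affine along real lines of direction `v` has vanishing second derivative in
the direction `v` -/
theorem dd_dd_eq_zero {A B : S.L} (hAB : A ≤ B) {y : Fin m → QS S} {s : QS S} (hy : Rl y A)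
    (hyB : vd y 1 ≤ B) (hs : h (dg s 1) B = 1) {v : Fin m → QS S} (hv : ∀ j, dg (v j) 1 ≤ A)
    {G : MvPolynomial (Fin m) (QS S)} (hG : G ∈ PK A) {α β : QS S} (hα : dg α 1 ≤ B)
    (hβ : dg β 1 ≤ B) (e : eval (fun j => y j + s * v j) G = α + s * β) :
    dd v (dd v G) = 0 := by
  have hl := lin_mem hv hG
  have hc : (lin v G).coeff 2 = 0 := by
    refine mv_eq_zero' A y _ hy (hl 2) ?_
    set P : Polynomial (QS S) := (lin v G).map (eval y) - (Polynomial.C α + Polynomial.X * Polynomial.C β)
      with hP
    have hk : ∀ a, dg (P.coeff a) 1 ≤ B := by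
      intro a
      rw [hP, Polynomial.coeff_sub, Polynomial.coeff_map, Polynomial.coeff_add]
      refine (Kn S 1 le_rfl B).sub_mem ?_ ((Kn S 1 le_rfl B).add_mem ?_ ?_)
      · exact eval_mem (hl a) y hAB fun i => (dg_le_vd y 1 i).trans hyB
      · rw [Polynomial.coeff_C]
        split_ifs
        · exact hα
        · exact (Kn S 1 le_rfl B).zero_mem
      · rw [Polynomial.coeff_mul_C, Polynomial.coeff_X]
        refine (Kn S 1 le_rfl B).mul_mem ?_ hβ
        split_ifs
        · exact (Kn S 1 le_rfl B).one_mem
        · exact (Kn S 1 le_rfl B).zero_mem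
    have hev : P.eval s = 0 := by
      rw [hP, Polynomial.eval_sub, eval_lin, e, Polynomial.eval_add, Polynomial.eval_mul,
        Polynomial.eval_C, Polynomial.eval_C, Polynomial.eval_X, sub_self]
    have h1 : pe (fun b : Fin (max P.natDegree 2 + 1) => P.coeff b) s = 0 := by
      rw [pe_eval P s (max P.natDegree 2) (Nat.lt_succ_of_le (le_max_left _ _))]
      exact hev
    have h2 := real_eq_zero (fun b : Fin (max P.natDegree 2 + 1) => P.coeff b) s (by
      apply le_antisymm (h_dg_le_one _ _)
      refine hs.ge.trans (h_anti ?_)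
      rw [vd_le]
      intro b
      exact hk b) h1 ⟨2, Nat.lt_succ_of_le (le_max_right _ _)⟩
    have h3 : P.coeff 2 = 0 := h2
    rw [hP, Polynomial.coeff_sub, Polynomial.coeff_map, Polynomial.coeff_add,
      Polynomial.coeff_C_of_ne_zero (by norm_num), Polynomial.coeff_mul_C, Polynomial.coeff_X,
      if_neg (by norm_num), zero_mul, add_zero, sub_zero] at h3
    exact h3
  rw [dd_dd, hc, mul_zero]

/-- **A sheet over a flat base has degree at most `m`** (`ns_notes_39c`, section 2): `G` and the rows of
the invertible matrix `V` are known to `A`; for every `i` the point `y i` is real over `A`, and the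
polynomial `G` is affine in `s i` along the line `y i + s i * V i`, with coefficients known to `B i`
(which also knows `A` and `y i`), where `s i` is real over `B i`. -/
theorem totalDegree_le {A : S.L} {B : Fin m → S.L} (hAB : ∀ i, A ≤ B i) {y : Fin m → Fin m → QS S}
    {s : Fin m → QS S} (hy : ∀ i, Rl (y i) A) (hyB : ∀ i, vd (y i) 1 ≤ B i)
    (hs : ∀ i, h (dg (s i) 1) (B i) = 1) (V : Matrix (Fin m) (Fin m) (QS S))
    (hu : IsUnit V.det) (hV : ∀ i j, dg (V i j) 1 ≤ A)
    {G : MvPolynomial (Fin m) (QS S)} (hG : G ∈ PK A) {α β : Fin m → QS S}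
    (hα : ∀ i, dg (α i) 1 ≤ B i) (hβ : ∀ i, dg (β i) 1 ≤ B i)
    (e : ∀ i, eval (fun j => y i j + s i * V i j) G = α i + s i * β i) :
    G.totalDegree ≤ m ∧ ∀ a : Fin m →₀ ℕ, (sub V G).coeff a ≠ 0 → ∀ i, a i ≤ 1 :=
  deg_of_dir (fun n => isUnit_natCast n) V hu G fun i =>
    dd_dd_eq_zero (hAB i) (hy i) (hyB i) (hs i) (hV i) hG (hα i) (hβ i) (e i)

end

end Pool.Agent.Helper95.GR
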