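import Mathlib

/-!
# A polynomial affine along a basis of directions has degree at most `m`

Algebra behind `ns_notes_39c`, section 2: over a commutative ring in which all positive integers are
units, let `V` be an invertible `m × m` matrix (rows = directions) and `G` a polynomial in `m`
variables with `dd (V i) (dd (V i) G) = 0` for every `i` (`dd v` = derivative in direction `v`).
Then `G` has total degree at most `m`, and it is affine in each coordinate of the basis.
-/

namespace Pool.Agent.Helper95.GR

open MvPolynomial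

variable {R : Type*} [CommRing R] {m : ℕ}

/-- derivative in the direction `v` -/
noncomputable def dd (v : Fin m → R) (G : MvPolynomial (Fin m) R) : MvPolynomial (Fin m) R :=
  ∑ j, C (v j) * pderiv j G

/-- substitution `q = Σ s_i V_i` -/
noncomputable def sub (V : Matrix (Fin m) (Fin m) R) :
    MvPolynomial (Fin m) R →ₐ[R] MvPolynomial (Fin m) R :=
  aeval (fun j => ∑ i, C (V i j) * X i)

theorem sub_X (V : Matrix (Fin m) (Fin m) R) (j : Fin m) :
    sub V (X j) = ∑ i, C (V i j) * X i := by
  unfold sub
  rw [aeval_X]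

theorem sub_C (V : Matrix (Fin m) (Fin m) R) (a : R) : sub V (C a) = C a := by
  unfold sub
  rw [aeval_C]
  rfl

theorem dd_add (v : Fin m → R) (G H : MvPolynomial (Fin m) R) : dd v (G + H) = dd v G + dd v H := by
  unfold dd
  rw [← Finset.sum_add_distrib]
  refine Finset.sum_congr rfl fun j _ => ?_
  rw [map_add, mul_add]

theorem dd_mul (v : Fin m → R) (G H : MvPolynomial (Fin m) R) :
    dd v (G * H) = G * dd v H + H * dd v G := by
  unfold dd
  rw [Finset.mul_sum, Finset.mul_sum, ← Finset.sum_add_distrib]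
  refine Finset.sum_congr rfl fun j _ => ?_
  rw [Derivation.leibniz, smul_eq_mul, smul_eq_mul]
  ring

theorem dd_C (v : Fin m → R) (a : R) : dd v (C a) = 0 := by
  unfold dd
  refine Finset.sum_eq_zero fun j _ => ?_
  rw [pderiv_C, mul_zero]

theorem dd_X (v : Fin m → R) (j : Fin m) : dd v (X j) = C (v j) := by
  unfold dd
  rw [Finset.sum_eq_single j]
  · rw [pderiv_X_self, mul_one]
  · intro k _ hk
    rw [pderiv_X_of_ne (Ne.symm hk), mul_zero]
  · intro h
    exact absurd (Finset.mem_univ j) h

theorem pderiv_sub (V : Matrix (Fin m) (Fin m) R) (i : Fin m) (G : MvPolynomial (Fin m) R) :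
    pderiv i (sub V G) = sub V (dd (V i) G) := by
  induction G using MvPolynomial.induction_on with
  | C a => rw [sub_C, pderiv_C, dd_C, map_zero]
  | add p q hp hq => rw [map_add, map_add, dd_add, map_add, hp, hq]
  | mul_X p j hp =>
    rw [map_mul, Derivation.leibniz, dd_mul, map_add, map_mul, map_mul, hp, dd_X, sub_C, sub_X,
      smul_eq_mul, smul_eq_mul]
    have h : pderiv i (∑ k, C (V k j) * X k : MvPolynomial (Fin m) R) = C (V i j) := by
      rw [map_sum, Finset.sum_eq_single i]
      · rw [Derivation.leibniz, pderiv_X_self, pderiv_C, smul_zero, add_zero, smul_eq_mul, mul_one]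
      · intro k _ hk
        rw [Derivation.leibniz, pderiv_X_of_ne hk, pderiv_C, smul_zero, smul_zero, add_zero]
      · intro h
        exact absurd (Finset.mem_univ i) h
    rw [h]

/-- vanishing second derivative in the variable `i`: degree at most one in this variable -/
theorem deg_le_one (hu : ∀ n : ℕ, IsUnit ((n : R) + 1)) (i : Fin m) (P : MvPolynomial (Fin m) R)
    (h : pderiv i (pderiv i P) = 0) (a : Fin m →₀ ℕ) (ha : P.coeff a ≠ 0) : a i ≤ 1 := by
  by_contra hlt
  have h2 : 2 ≤ a i := by omega
  set b : Fin m →₀ ℕ := a - Finsupp.single i 2 with hb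
  have hba : b + Finsupp.single i 1 + Finsupp.single i 1 = a := by
    ext k
    by_cases hk : k = i
    · subst hk
      simp only [hb, Finsupp.coe_add, Finsupp.coe_tsub, Pi.add_apply, Pi.sub_apply, Finsupp.single_eq_same]
      omega
    · simp [hb, hk]
  have h3 := congrArg (fun q => MvPolynomial.coeff b q) h
  simp only [coeff_pderiv, coeff_zero, hba] at h3
  have hu1 := hu (b i)
  have hu2 := hu ((b + Finsupp.single i 1 : Fin m →₀ ℕ) i)
  have h4 : MvPolynomial.coeff a P * (((b + Finsupp.single i 1 : Fin m →₀ ℕ) i : ℕ) + 1 : R) = 0 :=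
    (hu1.mul_left_eq_zero).1 h3
  exact ha ((hu2.mul_left_eq_zero).1 h4)

theorem totalDegree_le_of_dir (P : MvPolynomial (Fin m) R)
    (h : ∀ a : Fin m →₀ ℕ, P.coeff a ≠ 0 → ∀ i, a i ≤ 1) : P.totalDegree ≤ m := by
  rw [totalDegree]
  refine Finset.sup_le fun a ha => ?_
  have h1 := h a (mem_support_iff.1 ha)
  rw [Finsupp.sum_fintype _ _ (fun _ => rfl)]
  calc ∑ i, a i ≤ ∑ _i : Fin m, 1 := Finset.sum_le_sum fun i _ => h1 i
    _ = m := by simp

theorem totalDegree_sub_le (V : Matrix (Fin m) (Fin m) R) (P : MvPolynomial (Fin m) R) :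
    (sub V P).totalDegree ≤ P.totalDegree := by
  have hX : ∀ j, (sub V (X j) : MvPolynomial (Fin m) R).totalDegree ≤ 1 := by
    intro j
    rw [sub_X]
    refine totalDegree_finsetSum_le fun i _ => ?_
    refine (totalDegree_mul _ _).trans ?_
    rw [totalDegree_C, zero_add]
    by_cases hR : Nontrivial R
    · rw [totalDegree_X]
    · rw [not_nontrivial_iff_subsingleton] at hR
      have : (X i : MvPolynomial (Fin m) R) = 0 := Subsingleton.elim _ _
      rw [this, totalDegree_zero]
      exact Nat.zero_le _
  conv_lhs => rw [P.as_sum, map_sum]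
  refine totalDegree_finsetSum_le fun a ha => ?_
  rw [monomial_eq, map_mul, sub_C]
  refine (totalDegree_mul _ _).trans ?_
  rw [totalDegree_C, zero_add, Finsupp.prod, map_prod]
  refine (totalDegree_finsetProd _ _).trans ?_
  refine le_trans ?_ (le_totalDegree ha)
  rw [Finsupp.sum]
  refine Finset.sum_le_sum fun i _ => ?_
  rw [map_pow]
  refine (totalDegree_pow _ _).trans ?_
  calc a i * (sub V (X i) : MvPolynomial (Fin m) R).totalDegree ≤ a i * 1 := Nat.mul_le_mul_left _ (hX i)
    _ = a i := mul_one _

theorem sub_sub (V W : Matrix (Fin m) (Fin m) R) (P : MvPolynomial (Fin m) R) :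
    sub W (sub V P) = sub (W * V) P := by
  induction P using MvPolynomial.induction_on with
  | C a => rw [sub_C, sub_C, sub_C]
  | add p q hp hq => rw [map_add, map_add, map_add, hp, hq]
  | mul_X p j hp =>
    rw [map_mul, map_mul, map_mul, hp, sub_X, sub_X, map_sum]
    refine congrArg (sub (W * V) p * ·) ?_
    simp only [map_mul, sub_C, sub_X, Matrix.mul_apply, Finset.mul_sum, map_sum, Finset.sum_mul]
    rw [Finset.sum_comm]
    refine Finset.sum_congr rfl fun i _ => Finset.sum_congr rfl fun k _ => ?_
    ring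

theorem sub_one (P : MvPolynomial (Fin m) R) : sub (1 : Matrix (Fin m) (Fin m) R) P = P := by
  induction P using MvPolynomial.induction_on with
  | C a => rw [sub_C]
  | add p q hp hq => rw [map_add, hp, hq]
  | mul_X p j hp =>
    rw [map_mul, hp, sub_X]
    refine congrArg (p * ·) ?_
    rw [Finset.sum_eq_single j]
    · rw [Matrix.one_apply_eq, C_1, one_mul]
    · intro k _ hk
      rw [Matrix.one_apply_ne hk, C_0, zero_mul]
    · intro h
      exact absurd (Finset.mem_univ j) h

/-- **A polynomial which is affine along `m` independent directions has degree at most `m`**, and is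
affine in each of the corresponding coordinates. -/
theorem deg_of_dir (hu : ∀ n : ℕ, IsUnit ((n : R) + 1)) (V : Matrix (Fin m) (Fin m) R)
    (hV : IsUnit V.det) (G : MvPolynomial (Fin m) R) (h : ∀ i, dd (V i) (dd (V i) G) = 0) :
    G.totalDegree ≤ m ∧ ∀ a : Fin m →₀ ℕ, (sub V G).coeff a ≠ 0 → ∀ i, a i ≤ 1 := by
  have h1 : ∀ a : Fin m →₀ ℕ, (sub V G).coeff a ≠ 0 → ∀ i, a i ≤ 1 := by
    intro a ha i
    refine deg_le_one hu i (sub V G) ?_ a ha
    rw [pderiv_sub, pderiv_sub, h i, map_zero]
  refine ⟨?_, h1⟩
  have h2 : sub V⁻¹ (sub V G) = G := by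
    rw [sub_sub, Matrix.nonsing_inv_mul V hV, sub_one]
  rw [← h2]
  exact (totalDegree_sub_le _ _).trans (totalDegree_le_of_dir _ h1)

/-- Form with an inverse matrix given explicitly. -/
theorem deg_of_dir' (hu : ∀ n : ℕ, IsUnit ((n : R) + 1)) (V W : Matrix (Fin m) (Fin m) R)
    (hV : W * V = 1) (G : MvPolynomial (Fin m) R) (h : ∀ i, dd (V i) (dd (V i) G) = 0) :
    G.totalDegree ≤ m := by
  have h1 : IsUnit V.det := by
    have h3 := congrArg Matrix.det hV
    rw [Matrix.det_mul, Matrix.det_one] at h3
    exact IsUnit.of_mul_eq_one _ (by rw [mul_comm]; exact h3)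
  exact (deg_of_dir hu V h1 G h).1

end Pool.Agent.Helper95.GR
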